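import Mathlib

set_option autoImplicit false

namespace Pool.Agent.Results.MP_ea2134_lc.Thin

open Cardinal

/-- terms with `n` number variables -/
inductive Tm (n : ℕ) : Type
  | var (i : Fin n) | zero | one | add (s t : Tm n) | mul (s t : Tm n)

/-- formulas of second-order arithmetic with `n` number variables and `k` set variables -/
inductive Fm : ℕ → ℕ → Type
  | eq {n k : ℕ} (s t : Tm n) : Fm n k
  | lt {n k : ℕ} (s t : Tm n) : Fm n k
  | mem {n k : ℕ} (t : Tm n) (X : Fin k) : Fm n k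
  | neg {n k : ℕ} (a : Fm n k) : Fm n k
  | and {n k : ℕ} (a b : Fm n k) : Fm n k
  | exN {n k : ℕ} (a : Fm (n + 1) k) : Fm n k
  | exS {n k : ℕ} (a : Fm n (k + 1)) : Fm n k

def Tm.val {n : ℕ} (v : Fin n → ℕ) : Tm n → ℕ
  | .var i => v i
  | .zero => 0
  | .one => 1
  | .add s t => s.val v + t.val v
  | .mul s t => s.val v * t.val v

/-- truth in the full standard model -/
def Sat : {n k : ℕ} → Fm n k → (Fin n → ℕ) → (Fin k → Set ℕ) → Prop
  | _, _, .eq s t, v, _ => s.val v = t.val v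
  | _, _, .lt s t, v, _ => s.val v < t.val v
  | _, _, .mem t X, v, w => t.val v ∈ w X
  | _, _, .neg a, v, w => ¬ Sat a v w
  | _, _, .and a b, v, w => Sat a v w ∧ Sat b v w
  | _, _, .exN a, v, w => ∃ m, Sat a (Fin.cons m v) w
  | _, _, .exS a, v, w => ∃ X, Sat a v (Fin.cons X w)

/-- `a` is typical over the parameters `b` -/
def Tp {k : ℕ} (a : Set ℕ) (b : Fin k → Set ℕ) : Prop :=
  ¬ ∃ φ : Fm 0 (k + 1), Sat φ ![] (Fin.cons a b) ∧ #{x | Sat φ ![] (Fin.cons x b)} < 𝔠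

def ren : {n k l : ℕ} → (Fin k → Fin l) → Fm n k → Fm n l
  | _, _, _, _, .eq s t => .eq s t
  | _, _, _, _, .lt s t => .lt s t
  | _, _, _, σ, .mem t X => .mem t (σ X)
  | _, _, _, σ, .neg a => .neg (ren σ a)
  | _, _, _, σ, .and a b => .and (ren σ a) (ren σ b)
  | _, _, _, σ, .exN a => .exN (ren σ a)
  | _, _, _, σ, .exS a => .exS (ren (Fin.cons 0 fun i => (σ i).succ) a)

theorem sat_ren {n k : ℕ} (a : Fm n k) : ∀ {l : ℕ} (σ : Fin k → Fin l) (v : Fin n → ℕ)
    (w : Fin l → Set ℕ), Sat (ren σ a) v w ↔ Sat a v (w ∘ σ) := by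
  induction a with
  | exS a ih =>
    intro l σ v w
    simp only [ren, Sat, ih]
    refine exists_congr fun X => iff_of_eq (congrArg _ (funext fun i => ?_))
    refine Fin.cases rfl (fun j => ?_) i
    simp
  | _ => intros; simp [ren, Sat, *]

theorem result (H : ∀ (φ : Fm 0 2) (b : Set ℕ), #{x | Sat φ ![] (Fin.cons x ![b])} < 𝔠 →
      {x | Sat φ ![] (Fin.cons x ![b])}.Countable) (a b : Set ℕ)
    (ha : ¬ Tp a ![]) (hb : ¬ Tp b ![a]) : ¬ Tp b ![] := by
  obtain ⟨ψ, p1, p2⟩ := not_not.1 ha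
  obtain ⟨φ, q1, q2⟩ := not_not.1 hb
  let t : Tm 2 := .add (.mul (.add (.var 1) (.var 0)) (.add (.var 1) (.var 0))) (.var 1)
  let χ : Fm 0 4 := .exN (.neg (.exN (.neg (.and (.neg (.and (.mem (.var 0) 0) (.neg (.mem t 1))))
    (.neg (.and (.mem t 1) (.neg (.mem (.var 0) 0))))))))
  let θ : Fm 0 1 := .exS (.and (ren ![0] ψ) (.and (ren ![1, 0] φ)
    (.exS (.neg (.exS (.and (ren ![0, 2] φ) (.neg χ)))))))
  have e : ∀ x, Sat θ ![] (Fin.cons x ![]) ↔ ∃ y, Sat ψ ![] (Fin.cons y ![]) ∧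
      Sat φ ![] (Fin.cons x ![y]) ∧ ∃ z : Set ℕ, ∀ w, Sat φ ![] (Fin.cons w ![y]) →
        ∃ n, ∀ m, m ∈ w ↔ (n + m) * (n + m) + n ∈ z := fun x => by
    simp only [θ, Sat, sat_ren]
    refine exists_congr fun y => and_congr (iff_of_eq (congrArg _ (funext fun i => ?_)))
      (and_congr (iff_of_eq (congrArg _ (funext fun i => ?_))) (exists_congr fun z => ?_))
    · fin_cases i; rfl
    · fin_cases i <;> rfl
    · rw [not_exists]
      refine forall_congr' fun w => ?_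
      rw [not_and, not_not]
      refine imp_congr (iff_of_eq (congrArg _ (funext fun i => ?_))) ?_
      · fin_cases i <;> rfl
      · show (∃ n, ¬ ∃ m, ¬ (¬ (m ∈ w ∧ ¬ (n + m) * (n + m) + n ∈ z) ∧
          ¬ ((n + m) * (n + m) + n ∈ z ∧ ¬ m ∈ w))) ↔ _
        simp only [not_exists, not_not, not_and]
        exact exists_congr fun n => forall_congr' fun m => by tauto
  have c : {y | Sat ψ ![] (Fin.cons y ![])}.Countable := by
    have k : {x | Sat (ren ![0] ψ : Fm 0 2) ![] (Fin.cons x ![a])} = {y | Sat ψ ![] (Fin.cons y ![])} :=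
      Set.ext fun x => (sat_ren _ _ _ _).trans
        (iff_of_eq (congrArg _ (funext fun i => by fin_cases i; rfl)))
    exact k ▸ H _ a (k ▸ p2)
  refine not_not.2 ⟨θ, (e b).2 ⟨a, p1, q1, ?_⟩, ?_⟩
  · obtain ⟨f, hf⟩ := (H φ a q2).exists_eq_range ⟨b, q1⟩
    refine ⟨{p | ∃ n m, p = (n + m) * (n + m) + n ∧ m ∈ f n}, fun w k => ?_⟩
    obtain ⟨n, rfl⟩ : w ∈ Set.range f := hf ▸ k
    refine ⟨n, fun m => ⟨fun l => ⟨n, m, rfl, l⟩, fun ⟨n', m', l, o⟩ => ?_⟩⟩
    have s : n + m = n' + m' := by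
      rcases lt_trichotomy (n + m) (n' + m') with r | r | r
      · nlinarith
      · exact r
      · nlinarith
    rw [s] at l
    obtain rfl : n = n' := by omega
    obtain rfl : m = m' := by omega
    exact o
  · refine lt_of_le_of_lt (Cardinal.le_aleph0_iff_set_countable.2 ?_) aleph0_lt_continuum
    refine (c.biUnion (t := fun y _ => {x | Sat φ ![] (Fin.cons x ![y]) ∧ ∃ z : Set ℕ, ∀ w,
      Sat φ ![] (Fin.cons w ![y]) → ∃ n, ∀ m, m ∈ w ↔ (n + m) * (n + m) + n ∈ z}) fun y _ => ?_).mono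
        fun x k => ((e x).1 k).elim fun y l => Set.mem_iUnion₂.2 ⟨y, l.1, l.2⟩
    by_cases k : ∃ z : Set ℕ, ∀ w, Sat φ ![] (Fin.cons w ![y]) →
      ∃ n, ∀ m, m ∈ w ↔ (n + m) * (n + m) + n ∈ z
    · obtain ⟨z, hz⟩ := k
      exact (Set.countable_range fun n => {m | (n + m) * (n + m) + n ∈ z}).mono fun x l =>
        (hz x l.1).imp fun n o => (Set.ext o).symm
    · exact Set.countable_empty.mono fun x l => k l.2

end Pool.Agent.Results.MP_ea2134_lc.Thin
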